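import Pool.Agent.E8helper22.SZ.Stm
import Pool.Agent.Erdos456.LBound

/-! Project SZ, piece LSUM. -/

set_option autoImplicit false

namespace Pool.Agent.E8helper23.SZ

open Finset Filter Topology DirichletCharacter
open Pool.Agent.E8helper22.SZ
open Pool.Agent.Erdos456 (norm_interval_le abel_bound)

/-- the sum of the reciprocals of the divisors bounds the product -/
lemma prod_le_div {h : ℕ} (hh : 0 < h) :
    ∏ p ∈ h.primeFactors, (1 + 1 / (p : ℝ)) ≤ ∑ d ∈ h.divisors, 1 / (d : ℝ) := by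
  classical
  rw [Finset.prod_one_add]
  have hinj : Set.InjOn (fun T : Finset ℕ => ∏ p ∈ T, p)
      (h.primeFactors.powerset : Set (Finset ℕ)) := by
    intro T hT T' hT' heq
    rw [Finset.mem_coe, Finset.mem_powerset] at hT hT'
    simp only at heq
    have hp : ∀ U : Finset ℕ, U ⊆ h.primeFactors → (∏ p ∈ U, p).primeFactors = U := by
      intro U hU
      exact Nat.primeFactors_prod (fun p hp => Nat.prime_of_mem_primeFactors (hU hp))
    rw [← hp T hT, ← hp T' hT', heq]
  have h1 : ∑ T ∈ h.primeFactors.powerset, ∏ p ∈ T, (1 / (p : ℝ)) =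
      ∑ d ∈ h.primeFactors.powerset.image (fun T : Finset ℕ => ∏ p ∈ T, p), 1 / (d : ℝ) := by
    rw [Finset.sum_image hinj]
    apply Finset.sum_congr rfl
    intro T _
    rw [Finset.prod_div_distrib, Finset.prod_const_one]
    push_cast
    rfl
  rw [h1]
  apply Finset.sum_le_sum_of_subset_of_nonneg
  · intro d hd
    obtain ⟨T, hT, rfl⟩ := Finset.mem_image.mp hd
    rw [Finset.mem_powerset] at hT
    rw [Nat.mem_divisors]
    refine ⟨?_, hh.ne'⟩
    apply Finset.prod_primes_dvd
    · intro p hp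
      exact (Nat.prime_of_mem_primeFactors (hT hp)).prime
    · intro p hp
      exact Nat.dvd_of_mem_primeFactors (hT hp)
  · intro d _ _
    positivity

lemma prod_le_log {W : ℕ} (hW : 0 < W) :
    ∏ p ∈ W.primeFactors, (1 + 1 / (p : ℝ)) ≤ 1 + Real.log W := by
  refine (prod_le_div hW).trans ?_
  have h := harmonic_le_one_add_log W
  rw [harmonic_eq_sum_Icc] at h
  push_cast at h
  refine le_trans ?_ h
  have hsub : W.divisors ⊆ Icc 1 W := by
    intro d hd
    rw [Nat.mem_divisors] at hd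
    exact Finset.mem_Icc.mpr ⟨Nat.pos_of_dvd_of_pos hd.1 hW, Nat.le_of_dvd hW hd.1⟩
  refine (Finset.sum_le_sum_of_subset_of_nonneg hsub (fun _ _ _ => by positivity)).trans ?_
  exact le_of_eq (Finset.sum_congr rfl (fun d _ => by rw [one_div]))

/-- the tail of the series at `s > 1` -/
lemma tail_s {N : ℕ} [NeZero N] (ψ : DirichletCharacter ℂ N) (hψ : ψ ≠ 1) (D : ℕ) (s : ℝ)
    (hs : 1 < s) :
    ‖LFunction ψ (s : ℂ) - ∑ i ∈ range (D + 1), ψ (i : ZMod N) * (((i : ℝ) ^ (-s) : ℝ) : ℂ)‖ ≤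
      2 * N * ((D + 1 : ℕ) : ℝ) ^ (-s) := by
  have hs' : 1 < (s : ℂ).re := by simpa using hs
  have hsum : LSeriesSummable (fun n : ℕ => ψ (n : ZMod N)) (s : ℂ) :=
    DirichletCharacter.LSeriesSummable_of_one_lt_re ψ hs'
  have hL : HasSum (fun n : ℕ => LSeries.term (fun n : ℕ => ψ (n : ZMod N)) (s : ℂ) n)
      (LFunction ψ (s : ℂ)) := by
    rw [DirichletCharacter.LFunction_eq_LSeries ψ hs']
    exact hsum.hasSum
  have hterm : ∀ n : ℕ, LSeries.term (fun n : ℕ => ψ (n : ZMod N)) (s : ℂ) n =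
      ψ (n : ZMod N) * (((n : ℝ) ^ (-s) : ℝ) : ℂ) := by
    intro n
    rcases Nat.eq_zero_or_pos n with rfl | hn
    · have : ((0 : ℕ) : ℝ) ^ (-s) = 0 := by
        rw [Nat.cast_zero, Real.zero_rpow (by linarith)]
      rw [this]
      simp
    · rw [LSeries.term_of_ne_zero hn.ne', div_eq_mul_inv]
      congr 1
      rw [Real.rpow_neg (Nat.cast_nonneg _), Complex.ofReal_inv,
        Complex.ofReal_cpow (Nat.cast_nonneg _)]
      norm_cast
  simp_rw [hterm] at hL
  have hlim := hL.tendsto_sum_nat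
  have hlim2 := (hlim.sub_const (∑ i ∈ range (D + 1), ψ (i : ZMod N) * (((i : ℝ) ^ (-s) : ℝ) : ℂ))).norm
  apply le_of_tendsto hlim2
  filter_upwards [eventually_ge_atTop (D + 1)] with M hM
  obtain ⟨n, rfl⟩ : ∃ n, M = (D + 1) + n := ⟨M - (D + 1), by omega⟩
  rw [Finset.sum_range_add, add_sub_cancel_left]
  have := abel_bound (fun i => ψ ((D + 1 + i : ℕ) : ZMod N)) (2 * N)
    (norm_interval_le ψ hψ (D + 1))
    (fun i => ((D + 1 + i : ℕ) : ℝ) ^ (-s)) (by
      intro a b hab
      apply Real.rpow_le_rpow_of_nonpos (by positivity) (by exact_mod_cast (by omega)) (by linarith))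
    (fun n => by positivity) n
  simpa using this

/-- the tail of the series at `s = 1` -/
lemma tail_one {N : ℕ} [NeZero N] (ψ : DirichletCharacter ℂ N) (hψ : ψ ≠ 1) (D : ℕ) :
    ‖LFunction ψ 1 - ∑ i ∈ range (D + 1), ψ (i : ZMod N) * (((i : ℝ)⁻¹ : ℝ) : ℂ)‖ ≤
      2 * N * (((D + 1 : ℕ) : ℝ)⁻¹) := by
  have hc : Continuous (LFunction ψ) := (differentiable_LFunction hψ).continuous
  have hne : NeBot (𝓝[>] (1 : ℝ)) := inferInstance
  have h1 : Tendsto (fun s : ℝ => ‖LFunction ψ (s : ℂ) -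
      ∑ i ∈ range (D + 1), ψ (i : ZMod N) * (((i : ℝ) ^ (-s) : ℝ) : ℂ)‖) (𝓝[>] (1 : ℝ))
      (𝓝 ‖LFunction ψ 1 - ∑ i ∈ range (D + 1), ψ (i : ZMod N) * (((i : ℝ)⁻¹ : ℝ) : ℂ)‖) := by
    apply Tendsto.norm
    apply Tendsto.sub
    · have h2 : Tendsto (fun s : ℝ => LFunction ψ (s : ℂ)) (𝓝 (1 : ℝ)) (𝓝 (LFunction ψ ((1 : ℝ) : ℂ))) :=
        (hc.comp Complex.continuous_ofReal).tendsto 1
      rw [Complex.ofReal_one] at h2
      exact h2.mono_left nhdsWithin_le_nhds
    · apply tendsto_finsetSum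
      intro i _
      apply Tendsto.const_mul
      apply (Complex.continuous_ofReal.tendsto _).comp
      rcases Nat.eq_zero_or_pos i with rfl | hi
      · have h0 : ∀ᶠ s : ℝ in 𝓝[>] (1 : ℝ), ((0 : ℕ) : ℝ)⁻¹ = ((0 : ℕ) : ℝ) ^ (-s) := by
          filter_upwards [self_mem_nhdsWithin] with s hs
          rw [Nat.cast_zero, inv_zero, Real.zero_rpow]
          have : (1 : ℝ) < s := hs
          linarith
        exact tendsto_const_nhds.congr' h0
      · have h3 : Continuous (fun s : ℝ => (i : ℝ) ^ (-s)) := by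
          apply Continuous.rpow continuous_const continuous_neg
          intro x; left; exact_mod_cast hi.ne'
        have h4 := h3.tendsto 1
        rw [Real.rpow_neg_one] at h4
        exact h4.mono_left nhdsWithin_le_nhds
  have h2 : Tendsto (fun s : ℝ => 2 * (N : ℝ) * ((D + 1 : ℕ) : ℝ) ^ (-s)) (𝓝[>] (1 : ℝ))
      (𝓝 (2 * N * (((D + 1 : ℕ) : ℝ)⁻¹))) := by
    have h3 : Continuous (fun s : ℝ => 2 * (N : ℝ) * ((D + 1 : ℕ) : ℝ) ^ (-s)) := by
      apply Continuous.mul continuous_const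
      apply Continuous.rpow continuous_const continuous_neg
      intro x; left; positivity
    have h4 := h3.tendsto 1
    rw [Real.rpow_neg_one] at h4
    exact h4.mono_left nhdsWithin_le_nhds
  refine le_of_tendsto_of_tendsto h1 h2 ?_
  filter_upwards [self_mem_nhdsWithin] with s hs
  exact tail_s ψ hψ D s hs

theorem t_LSUM : S_LSUM := by
  intro q W D hqz χ hq hχ hW hD
  have : NeZero W := ⟨hW.ne'⟩
  have : NeZero (q * W) := ⟨mul_ne_zero (NeZero.ne q) hW.ne'⟩
  have hχ1 : χ ≠ 1 := by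
    rintro rfl
    have h := hχ.prim
    rw [DirichletCharacter.isPrimitive_def, DirichletCharacter.conductor_one] at h
    omega
  set ψ : DirichletCharacter ℂ (q * W) := changeLevel (dvd_mul_right q W) χ with hψdef
  have hψ : ψ ≠ 1 := hχ1 ∘ (changeLevel_eq_one_iff (dvd_mul_right q W)).mp
  have hL := LFunction_changeLevel (dvd_mul_right q W) χ (s := 1) (Or.inl hχ1)
  -- the product
  have hprod : ‖∏ p ∈ (q * W).primeFactors, (1 - χ p * (p : ℂ) ^ (-1 : ℂ))‖ ≤ 1 + Real.log W := by
    refine le_trans ?_ (prod_le_log hW)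
    rw [norm_prod, Nat.primeFactors_mul (NeZero.ne q) hW.ne', Finset.union_comm]
    rw [← Finset.prod_subset (Finset.subset_union_left (s₁ := W.primeFactors) (s₂ := q.primeFactors))]
    · apply Finset.prod_le_prod (fun _ _ => norm_nonneg _)
      intro p hp
      refine (norm_sub_le _ _).trans ?_
      rw [norm_one, norm_mul, Complex.cpow_neg_one, norm_inv, Complex.norm_natCast, one_div]
      have h1 := χ.norm_le_one (p : ZMod q)
      have h2 : (0 : ℝ) ≤ (p : ℝ)⁻¹ := by positivity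
      nlinarith
    · intro p hp hp2
      have hpq : p ∈ q.primeFactors := by
        rcases Finset.mem_union.mp hp with h | h
        · exact absurd h hp2
        · exact h
      have h0 : χ (p : ZMod q) = 0 := by
        apply MulChar.map_nonunit
        intro hu
        rw [ZMod.isUnit_iff_coprime] at hu
        have := Nat.dvd_of_mem_primeFactors hpq
        have hp' := Nat.prime_of_mem_primeFactors hpq
        exact hp'.one_lt.ne' (Nat.eq_one_of_dvd_coprimes hu (dvd_refl p) this)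
      rw [h0]; simp
  have hval : ‖LFunction ψ 1‖ ≤ ‖χ.LFunction 1‖ * (1 + Real.log W) := by
    rw [hψdef, hL, norm_mul]
    exact mul_le_mul_of_nonneg_left hprod (norm_nonneg _)
  have htail := tail_one ψ hψ D
  -- the sum
  have hre : ∑ d ∈ (Icc 1 D).filter (fun d => Nat.Coprime d W), cv χ d / d =
      (∑ i ∈ range (D + 1), ψ (i : ZMod (q * W)) * (((i : ℝ)⁻¹ : ℝ) : ℂ)).re := by
    rw [Complex.re_sum]
    have hsub : (Icc 1 D).filter (fun d => Nat.Coprime d W) ⊆ range (D + 1) := by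
      intro d hd
      have := Finset.mem_Icc.mp (Finset.mem_filter.mp hd).1
      exact Finset.mem_range.mpr (by omega)
    rw [← Finset.sum_subset hsub]
    · apply Finset.sum_congr rfl
      intro d hd
      have hd2 := (Finset.mem_filter.mp hd).2
      rw [Complex.re_mul_ofReal, div_eq_mul_inv]
      congr 1
      unfold cv
      by_cases hdq : Nat.Coprime d q
      · have hu : IsCoprime (d : ℤ) ((q * W : ℕ) : ℤ) := by
          rw [Nat.isCoprime_iff_coprime]; exact Nat.Coprime.mul_right hdq hd2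
        have := changeLevel_eq_cast_of_dvd' χ (dvd_mul_right q W) hu
        rw [Int.cast_natCast, Int.cast_natCast] at this
        rw [hψdef, this]
      · have h1 : χ (d : ZMod q) = 0 := by
          apply MulChar.map_nonunit
          rw [ZMod.isUnit_iff_coprime]; exact hdq
        have h2 : ψ (d : ZMod (q * W)) = 0 := by
          apply MulChar.map_nonunit
          rw [ZMod.isUnit_iff_coprime]
          intro h; exact hdq (Nat.Coprime.coprime_mul_right_right h)
        rw [h1, h2]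
    · intro d hd hd2
      rw [Finset.mem_range] at hd
      rw [Complex.re_mul_ofReal]
      rcases Nat.eq_zero_or_pos d with rfl | hdp
      · simp
      · have h2 : ψ (d : ZMod (q * W)) = 0 := by
          apply MulChar.map_nonunit
          rw [ZMod.isUnit_iff_coprime]
          intro h
          apply hd2
          rw [Finset.mem_filter, Finset.mem_Icc]
          exact ⟨⟨hdp, by omega⟩, Nat.Coprime.coprime_mul_left_right h⟩
        rw [h2]; simp
  rw [hre]
  have h1 : (∑ i ∈ range (D + 1), ψ (i : ZMod (q * W)) * (((i : ℝ)⁻¹ : ℝ) : ℂ)).re ≤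
      ‖∑ i ∈ range (D + 1), ψ (i : ZMod (q * W)) * (((i : ℝ)⁻¹ : ℝ) : ℂ)‖ := Complex.re_le_norm _
  have h2 : ‖∑ i ∈ range (D + 1), ψ (i : ZMod (q * W)) * (((i : ℝ)⁻¹ : ℝ) : ℂ)‖ ≤
      ‖LFunction ψ 1‖ + ‖LFunction ψ 1 -
        ∑ i ∈ range (D + 1), ψ (i : ZMod (q * W)) * (((i : ℝ)⁻¹ : ℝ) : ℂ)‖ := by
    have := norm_sub_norm_le (∑ i ∈ range (D + 1), ψ (i : ZMod (q * W)) * (((i : ℝ)⁻¹ : ℝ) : ℂ))
      (LFunction ψ 1)
    rw [norm_sub_rev] at this
    linarith
  have h3 : 2 * ((q * W : ℕ) : ℝ) * (((D + 1 : ℕ) : ℝ)⁻¹) ≤ 2 * q * W / D := by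
    push_cast
    rw [div_eq_mul_inv, ← mul_assoc]
    apply mul_le_mul_of_nonneg_left _ (by positivity)
    apply inv_anti₀ (by exact_mod_cast hD) (by linarith)
  linarith

end Pool.Agent.E8helper23.SZ
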